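import Mathlib
import Pool.Agent.Results.MP_c59389_nt.SparseCurves
import Pool.Agent.Y724.T4.FRU

set_option autoImplicit false

/-!
# Frey's inequality for the Faltings heights over `K` of the Weil restrictions of all sparse elliptic
curves over all extensions of `K` of degree `g`

Frey's inequality for a number field `K` and a dimension `g` says that `h_F(A) ≤ κ log N_A + c` for all
abelian varieties `A` over `K` of dimension `g`. We prove it, with `κ = (3 / 2 + ε) / [K : ℚ]`, for the
Weil restrictions `A = Res_{L/K} E` (for `g = 1` the elliptic curves over `K`), where `L` runs over all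
extensions of `K` of degree `g` and `E` over all elliptic curves over `L` for which the triple
`c₄ ^ 3`, `- c₆ ^ 2`, `- 1728 Δ` of sum zero and its radical are sparse, up to a common factor (so every
quadratic twist is allowed; see `MP_c59389_nt.SparseCurves`). Here `h_F` is the height over `K`, with
the Néron model over the integers of `K` (not the stable height), so that all additive fibres
contribute. The constant depends only on `[L : ℚ]`, up to `log |D_K|`.
-/

namespace Pool.Agent.Results.MP_6babc4_nt.SparseWeilRestrictions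

open NumberField IsDedekindDomain
open Pool.Agent.Results.MP_6e34ef_nt.SparseTriples (SpansIntegers)
open Pool.Agent.Results.MP_c59389_nt.SparseCurves (arch IsPeriod badNorm IsSparseCurve)

/-- the equation is integral at `v` -/
def IntAt {K : Type} [Field K] [NumberField K] (v : HeightOneSpectrum (𝓞 K))
    (E : WeierstrassCurve K) : Prop :=
  v.valuation K E.a₁ ≤ 1 ∧ v.valuation K E.a₂ ≤ 1 ∧ v.valuation K E.a₃ ≤ 1 ∧
    v.valuation K E.a₄ ≤ 1 ∧ v.valuation K E.a₆ ≤ 1

/-- the exponent of `v` in the minimal discriminant of the curve: the least valuation at `v` of the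
discriminant of a Weierstrass equation of the curve over `K` which is integral at `v` -/
noncomputable def discExp {K : Type} [Field K] [NumberField K] (v : HeightOneSpectrum (𝓞 K))
    (E : WeierstrassCurve K) : ℕ :=
  sInf {m : ℕ | ∃ C : WeierstrassCurve.VariableChange K, IntAt v (C • E) ∧
    v.valuation K (C • E).Δ = WithZero.exp (-(m : ℤ))}

/-- the Faltings height over `K` of the Weil restriction `A = Res_{L/K} E` of an elliptic curve `E`
over `L` (up to an additive constant which depends on the normalisation of the metric only), where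
`τ w` is a point of the upper half plane with the modular invariant of `E` at the infinite place `w`:
`12 [K : ℚ] h_F(A)` is the sum of the logarithm of the norm of the minimal discriminant of `E`, of
the archimedean terms `- log (|Δ(τ)| (Im τ) ^ 6)`, and of `6 log (|D_L| / |D_K| ^ [L : K])` -/
noncomputable def height (K : Type) [Field K] [NumberField K] {L : Type} [Field L] [NumberField L]
    [Algebra K L] (E : WeierstrassCurve L) (τ : InfinitePlace L → UpperHalfPlane) : ℝ :=
  (∑ᶠ v : HeightOneSpectrum (𝓞 L), (discExp v E : ℝ) * Real.log (Ideal.absNorm v.asIdeal : ℝ) +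
    ∑ w : InfinitePlace L, (w.mult : ℝ) * arch (τ w) +
    6 * (Real.log |(discr L : ℝ)| - Module.finrank K L * Real.log |(discr K : ℝ)|)) /
    (12 * Module.finrank ℚ K)

/-- `badNorm E * (|D_L| / |D_K| ^ [L : K]) ^ 2`, a divisor of the conductor
`N_A = N(f_E) (|D_L| / |D_K| ^ [L : K]) ^ 2` of `A = Res_{L/K} E` (Milne) -/
noncomputable def condPart (K : Type) [Field K] [NumberField K] {L : Type} [Field L]
    [NumberField L] [Algebra K L] (E : WeierstrassCurve L) : ℝ :=
  badNorm E * (|(discr L : ℝ)| / |(discr K : ℝ)| ^ Module.finrank K L) ^ 2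

/-- **Main theorem.** For every `n`, all finite sets `S` of primes, all `l`, `m`, all real `A`, `B` and
`ε > 0` there are `δ > 0` and a constant `C` such that
`[K : ℚ] h_F(A) ≤ (3 / 2 + ε) (log N + 2 [L : K] log |D_K|) + C`, `N` the divisor `condPart` of the
conductor of `A = Res_{L/K} E`, for all number fields `K ⊆ L` with `[L : ℚ] = n` and all elliptic curves
`E` over `L` which are sparse with respect to some basis of the `S`-integers of `L`. For fixed `K` this
is Frey's inequality for the abelian varieties `A` over `K` of dimension `n / [K : ℚ]`. -/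
theorem result (n : ℕ) (S : Finset ℕ) (hS : ∀ p ∈ S, p.Prime) (l m : ℕ) (A B ε : ℝ)
    (hε : 0 < ε) :
    ∃ (δ C : ℝ), 0 < δ ∧ ∀ (K : Type) [Field K] [NumberField K] (L : Type) [Field L]
      [NumberField L] [Algebra K L] (ω : Module.Basis (Fin n) ℚ L)
      (E : WeierstrassCurve L) (τ : InfinitePlace L → UpperHalfPlane),
      SpansIntegers S ω → E.Δ ≠ 0 → IsPeriod (E.c₄ ^ 3 / E.Δ) τ →
      IsSparseCurve S l m A B δ ω E →
      Module.finrank ℚ K * height K E τ ≤ (3 / 2 + ε) *
        (Real.log (condPart K E) + 2 * (Module.finrank K L * Real.log |(discr K : ℝ)|)) + C := by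
  classical
  obtain ⟨δ, C, hδ, hmain⟩ :=
    Pool.Agent.Results.MP_c59389_nt.SparseCurves.result n S hS l m A B ε hε
  refine ⟨δ, C + Real.log 6 * n, hδ, ?_⟩
  intro K _ _ L _ _ _ ω E τ hspan hΔ hτ hsp
  have hnK : Module.finrank ℚ L = n := by
    rw [Module.finrank_eq_card_basis ω, Fintype.card_fin]
  have hn0 : 0 < n := by
    rw [← hnK]
    exact Module.finrank_pos
  have hnR : (0 : ℝ) < n := by exact_mod_cast hn0
  have hKR : (0 : ℝ) < Module.finrank ℚ K := by exact_mod_cast Module.finrank_pos
  have h1 := hmain L ω E τ hspan hΔ hτ hsp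
  have h2 := Pool.Agent.Y724.T4.FRU.disc_sum E hΔ
  have hD1 : ∀ (F : Type) [Field F] [NumberField F], (1 : ℝ) ≤ |(discr F : ℝ)| := by
    intro F _ _
    have h1 : (1 : ℤ) ≤ |NumberField.discr F| := Int.one_le_abs (NumberField.discr_ne_zero F)
    have h2 : ((1 : ℤ) : ℝ) ≤ ((|NumberField.discr F| : ℤ) : ℝ) := by exact_mod_cast h1
    rwa [Int.cast_abs, Int.cast_one] at h2
  have hL := hD1 L
  have hK := hD1 K
  have hfin := Pool.Agent.TH876.TT.bad L E hΔ
  have hbad1 : 1 ≤ badNorm E := by
    have h1 : badNorm E = ∏ w ∈ hfin.toFinset, (Ideal.absNorm w.asIdeal : ℝ) :=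
      finprod_mem_eq_finite_toFinset_prod _ hfin
    rw [h1]
    calc (1 : ℝ) = ∏ _w ∈ hfin.toFinset, (1 : ℝ) := by rw [Finset.prod_const_one]
      _ ≤ _ := Finset.prod_le_prod (fun _ _ => zero_le_one)
          fun w _ => (Pool.Agent.Y729.AE.one_lt_N w).le
  have hlogD : 0 ≤ Real.log |(discr L : ℝ)| := Real.log_nonneg hL
  -- the conductor
  have hcond : Real.log (condPart K E) = Real.log (badNorm E) +
      2 * (Real.log |(discr L : ℝ)| - Module.finrank K L * Real.log |(discr K : ℝ)|) := by
    unfold condPart
    rw [Real.log_mul (by linarith) (by positivity), Real.log_pow,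
      Real.log_div (by linarith) (by positivity), Real.log_pow]
    push_cast
    ring
  rw [Real.log_mul (by linarith) (by linarith)] at h1
  -- the stable height
  set Z : ℝ := ∑ᶠ v : HeightOneSpectrum (𝓞 L), Real.log (max (FinitePlace.mk v
    (E.c₄ ^ 3 / E.Δ)) 1) with hZ
  set W : ℝ := ∑ w : InfinitePlace L, (w.mult : ℝ) * arch (τ w) with hW
  have h3 : n * Pool.Agent.Results.MP_c59389_nt.SparseCurves.faltings (E.c₄ ^ 3 / E.Δ) τ =
      (Z + W) / 12 := by
    unfold Pool.Agent.Results.MP_c59389_nt.SparseCurves.faltings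
    rw [hnK]
    field_simp
    rfl
  have h4 : ∑ᶠ v : HeightOneSpectrum (𝓞 L), (discExp v E : ℝ) *
      Real.log (Ideal.absNorm v.asIdeal : ℝ) ≤ Z + 12 * Real.log (badNorm E) +
        12 * (Real.log 6 * n) := by
    rw [hnK] at h2
    exact h2
  have h5 : Module.finrank ℚ K * height K E τ =
      (∑ᶠ v : HeightOneSpectrum (𝓞 L), (discExp v E : ℝ) *
        Real.log (Ideal.absNorm v.asIdeal : ℝ) + W +
      6 * (Real.log |(discr L : ℝ)| - Module.finrank K L * Real.log |(discr K : ℝ)|)) / 12 := by
    unfold height
    field_simp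
    rfl
  rw [h3] at h1
  rw [h5, hcond]
  have h6 : 0 ≤ ε * Real.log |(discr L : ℝ)| := mul_nonneg hε.le hlogD
  have h7 : 0 ≤ Real.log |(discr K : ℝ)| := Real.log_nonneg hK
  have h8 : 0 ≤ (Module.finrank K L : ℝ) * Real.log |(discr K : ℝ)| :=
    mul_nonneg (Nat.cast_nonneg _) h7
  nlinarith
end Pool.Agent.Results.MP_6babc4_nt.SparseWeilRestrictions
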